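import Pool.Agent.GRA.StmtsC

/-!
MP_3b0ba7_pr, squad GRA, row CTR: the certificate theorem.
-/

set_option autoImplicit false

namespace Pool.Agent.GRA.H65

open Finset Pool.Agent.GRA

theorem params (n Q g1 g2 δ β F : ℝ) (hn : 4 ≤ n) (hQ : Q = g2 + 2 * δ + β)
    (hg1 : g1 = g2 + (n - 2) * δ) (h1 : 0 ≤ g1) (h2 : 0 ≤ g2) (hF : 0 < F) (hQ0 : 0 < Q)
    (htr : (n * (n - 1) / 2) * Q ^ 2 ≤
      (g2 + 2 * (n - 1) * δ + (n * (n - 1) / 2) * β) * F) :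
    (n - 3) * (g2 / Q) ≤ n - 1 - (n - 1) * Q / F ∧ g1 ≤ n * Q / 2 := by
  have e1 : g2 + 2 * (n - 1) * δ + (n * (n - 1) / 2) * β =
      n * (n - 1) / 2 * Q - (n - 1) * g1 - n * (n - 3) / 2 * g2 := by
    rw [hQ, hg1]; ring
  obtain ⟨R, hR⟩ : ∃ R, R = Q / F := ⟨_, rfl⟩
  have hR0 : 0 < R := by rw [hR]; positivity
  have e2 : Q = R * F := by rw [hR]; field_simp
  have e3 : n * (n - 1) / 2 * Q * R ≤
      n * (n - 1) / 2 * Q - (n - 1) * g1 - n * (n - 3) / 2 * g2 := by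
    rw [← e1]
    refine le_of_mul_le_mul_right ?_ hF
    calc n * (n - 1) / 2 * Q * R * F = n * (n - 1) / 2 * Q ^ 2 := by rw [e2]; ring
      _ ≤ _ := htr
  have hN : 0 ≤ n * (n - 1) / 2 * Q * R := by
    have : 0 ≤ n * (n - 1) / 2 := by nlinarith
    positivity
  constructor
  · have e4 : (n - 1) * Q / F = (n - 1) * R := by rw [hR]; ring
    rw [e4]
    obtain ⟨c, hc⟩ : ∃ c, c = g2 / Q := ⟨_, rfl⟩
    have e5 : g2 = c * Q := by rw [hc]; field_simp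
    rw [← hc]
    have h3 : 0 ≤ (n - 1) * g1 := mul_nonneg (by linarith) h1
    have hnQ : 0 < n / 2 * Q := by positivity
    refine le_of_mul_le_mul_left ?_ hnQ
    rw [e5] at e3
    nlinarith
  · have h3 : 0 ≤ n * (n - 3) / 2 * g2 := mul_nonneg (by nlinarith) h2
    have h4 : (n - 1) * g1 ≤ (n - 1) * (n * Q / 2) := by nlinarith
    exact le_of_mul_le_mul_left h4 (by linarith)

theorem pairineq (n Q κ g1 g2 : ℝ) (hn : 4 ≤ n) (hQ : 0 < Q) (hκ : κ ≤ 1) {b1 b2 D1 D2 xx yy A : ℝ}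
    (hb1 : 1 - b1 = 2 * κ * g1 / (n * Q)) (hD1 : g1 * D1 = 2 * (n - 2) * yy)
    (hD2 : g2 * D2 = 4 * A) (hxx : 0 ≤ xx)
    (hb2 : (κ * (g2 / Q) ≤ 1 ∧ 1 - b2 = κ * (g2 / Q)) ∨ (1 < κ * (g2 / Q) ∧ b2 = 0 ∧ 0 < g2 ∧
      (κ - 1 / (g2 / Q)) * (A / Q ^ 2) ≤ (1 - κ) * (xx / Q ^ 2))) :
    (κ / Q) * (xx + ((n - 2) / n) * yy + A) ≤
      (1 / 4) * ((1 - b1) * D1 + (1 - b2) * D2) + xx / Q := by
  have hn0 : n ≠ 0 := by linarith
  have e1 : (1 / 4) * ((1 - b1) * D1) = (κ / Q) * (((n - 2) / n) * yy) := by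
    rw [hb1]
    calc (1 / 4) * (2 * κ * g1 / (n * Q) * D1) = κ / (2 * (n * Q)) * (g1 * D1) := by ring
      _ = (κ / Q) * (((n - 2) / n) * yy) := by rw [hD1]; field_simp
  rcases hb2 with ⟨-, h2⟩ | ⟨-, h2, hg, h3⟩
  · have e2 : (1 / 4) * ((1 - b2) * D2) = (κ / Q) * A := by
      rw [h2]
      calc (1 / 4) * (κ * (g2 / Q) * D2) = κ / (4 * Q) * (g2 * D2) := by ring
        _ = (κ / Q) * A := by rw [hD2]; field_simp
    have e3 : (κ / Q) * xx ≤ xx / Q := by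
      rw [div_mul_eq_mul_div, div_le_div_iff_of_pos_right hQ]
      nlinarith
    nlinarith
  · have e2 : (1 / 4) * ((1 - b2) * D2) = A / g2 := by
      rw [h2, eq_div_iff hg.ne']
      linarith
    have e3 : (κ - Q / g2) * A ≤ (1 - κ) * xx := by
      have e4 : 1 / (g2 / Q) = Q / g2 := by rw [one_div_div]
      rw [e4] at h3
      have hQ2 : 0 < Q ^ 2 := by positivity
      have h5 := mul_le_mul_of_nonneg_right h3 hQ2.le
      have e5 : (κ - Q / g2) * (A / Q ^ 2) * Q ^ 2 = (κ - Q / g2) * A := by field_simp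
      have e6 : (1 - κ) * (xx / Q ^ 2) * Q ^ 2 = (1 - κ) * xx := by field_simp
      rw [e5, e6] at h5
      exact h5
    have e7 : (κ / Q) * (xx + A) ≤ A / g2 + xx / Q := by
      refine le_of_mul_le_mul_right ?_ hQ
      have e8 : κ / Q * (xx + A) * Q = κ * (xx + A) := by field_simp
      have e9 : (A / g2 + xx / Q) * Q = Q / g2 * A + xx := by field_simp
      rw [e8, e9]
      nlinarith
    calc (κ / Q) * (xx + ((n - 2) / n) * yy + A) =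
        (κ / Q) * (((n - 2) / n) * yy) + (κ / Q) * (xx + A) := by ring
      _ ≤ (κ / Q) * (((n - 2) / n) * yy) + (A / g2 + xx / Q) := by linarith
      _ = (1 / 4) * ((1 - b1) * D1 + (1 - b2) * D2) + xx / Q := by rw [← e1, ← e2]; ring

theorem normineq (n Q κ g1 g2 F : ℝ) (hn : 4 ≤ n) (hQ : 0 < Q) (hF : 0 < F)
    {b1 b2 N1 N2 Y Z : ℝ} (hb1 : 1 - b1 = 2 * κ * g1 / (n * Q)) (hN1 : g1 * N1 = (n - 2) * Y)
    (hN2 : g2 * N2 = Z)
    (hb2 : (1 - b2 = κ * (g2 / Q) ∧ (n - 1) / ((n - 1) * Q / F) ≤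
        κ * ((n - 1) + 2 * (n - 2) / n * Y / Q ^ 2 + Z / Q ^ 2)) ∨
      (b2 = 0 ∧ 0 < g2 ∧ (n - 1) / ((n - 1) * Q / F) ≤
        κ * ((n - 1) + 2 * (n - 2) / n * Y / Q ^ 2 + 2 * (Z / Q ^ 2)) - Z / Q ^ 2 / (g2 / Q))) :
    F + (1 - b1) * N1 + (1 - b2) * N2 ≤
      (κ / Q) * ((n - 1) * Q ^ 2 + (4 * (n - 2) / n) * Y + 2 * Z) := by
  have hn0 : n ≠ 0 := by linarith
  have hn1 : n - 1 ≠ 0 := by linarith
  have e0 : (n - 1) / ((n - 1) * Q / F) = F / Q := by field_simp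
  rw [e0] at hb2
  have e1 : (1 - b1) * N1 = (2 * κ * (n - 2) / (n * Q)) * Y := by
    rw [hb1]
    calc 2 * κ * g1 / (n * Q) * N1 = 2 * κ / (n * Q) * (g1 * N1) := by ring
      _ = _ := by rw [hN1]; ring
  rcases hb2 with ⟨h2, h3⟩ | ⟨h2, hg, h3⟩
  · have e2 : (1 - b2) * N2 = (κ / Q) * Z := by
      rw [h2, ← hN2]; ring
    have h4 := mul_le_mul_of_nonneg_right h3 hQ.le
    have e5 : F / Q * Q = F := by field_simp
    rw [e5] at h4
    rw [e1, e2]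
    have e6 : κ * ((n - 1) + 2 * (n - 2) / n * Y / Q ^ 2 + Z / Q ^ 2) * Q +
        (2 * κ * (n - 2) / (n * Q)) * Y + (κ / Q) * Z =
        (κ / Q) * ((n - 1) * Q ^ 2 + (4 * (n - 2) / n) * Y + 2 * Z) := by
      field_simp
      ring
    linarith
  · have e2 : (1 - b2) * N2 = Z / g2 := by
      rw [h2, ← hN2]
      field_simp
      ring
    have h4 := mul_le_mul_of_nonneg_right h3 hQ.le
    have e5 : F / Q * Q = F := by field_simp
    rw [e5] at h4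
    rw [e1, e2]
    have e6 : (κ * ((n - 1) + 2 * (n - 2) / n * Y / Q ^ 2 + 2 * (Z / Q ^ 2)) -
        Z / Q ^ 2 / (g2 / Q)) * Q + (2 * κ * (n - 2) / (n * Q)) * Y + Z / g2 =
        (κ / Q) * ((n - 1) * Q ^ 2 + (4 * (n - 2) / n) * Y + 2 * Z) := by
      field_simp
      ring
    linarith

variable {n : ℕ} {E : Type} [NormedAddCommGroup E] [InnerProductSpace ℂ E]

theorem inner_s (S : Sys n E) (σ : Equiv.Perm (Fin n)) (x y : E) :
    (inner ℂ (S.s σ x) (S.s σ y) : ℂ) = inner ℂ x y :=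
  LinearIsometry.inner_map_map (⟨S.s σ, S.iso σ⟩ : E →ₗᵢ[ℂ] E) x y

theorem exists_avg (S : Sys n E) (f : E) :
    ∃ f₀, S.Inv f₀ ∧ ∀ h, S.Inv h → (inner ℂ h (f - f₀) : ℂ) = 0 := by
  refine ⟨((Fintype.card (Equiv.Perm (Fin n)) : ℂ)⁻¹) • ∑ σ : Equiv.Perm (Fin n), S.s σ f, ?_, ?_⟩
  · intro τ
    rw [map_smul, map_sum]
    have h1 : ∀ σ : Equiv.Perm (Fin n), S.s τ (S.s σ f) = S.s (τ * σ) f := fun σ => by
      rw [map_mul]; rfl
    rw [Finset.sum_congr rfl fun σ _ => h1 σ]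
    rw [Fintype.sum_equiv (Equiv.mulLeft τ) (fun σ => S.s (τ * σ) f) (fun σ => S.s σ f)
      (fun σ => rfl)]
  · intro h hh
    have h1 : ∀ σ : Equiv.Perm (Fin n), (inner ℂ h (S.s σ f) : ℂ) = inner ℂ h f := fun σ =>
      calc (inner ℂ h (S.s σ f) : ℂ) = inner ℂ (S.s σ h) (S.s σ f) := by rw [hh σ]
        _ = inner ℂ h f := inner_s S σ h f
    rw [inner_sub_right, inner_smul_right, inner_sum, Finset.sum_congr rfl fun σ _ => h1 σ,
      Finset.sum_const, Finset.card_univ, nsmul_eq_mul]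
    have h2 : (Fintype.card (Equiv.Perm (Fin n)) : ℂ) ≠ 0 := by
      exact_mod_cast Fintype.card_ne_zero
    field_simp
    ring

theorem ctr (ald : ALDStmt) (cgr : CGRStmt) (cde : CDEStmt) (car : CARStmt) (con : CONStmt)
    (cpr : CPRStmt) (cka : CKAStmt) : CTRStmt := by
  intro n hn E _ _ _ S hm W hW hW0 lam hlam f
  have hnr : (4 : ℝ) ≤ n := by exact_mod_cast hn
  have hrhs : 0 ≤ (1 / 2) * ∑ i, ∑ j, if i = j then 0 else W i j * ‖f - S.P i j f‖ ^ 2 := by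
    refine mul_nonneg (by norm_num) (Finset.sum_nonneg fun i _ => Finset.sum_nonneg fun j _ => ?_)
    split_ifs
    · exact le_refl _
    · exact mul_nonneg (hW0 i j) (sq_nonneg _)
  rcases le_or_gt lam 0 with hl | hl
  · exact (mul_nonpos_of_nonpos_of_nonneg hl (sq_nonneg _)).trans hrhs
  obtain ⟨f₀, hi, ho⟩ := exists_avg S f
  by_cases hf0 : f₀ = 0
  · have h1 := ald n E S.s S.iso W hW hW0 lam hlam f (fun h hh => by
      have h2 := ho h hh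
      rwa [hf0, sub_zero] at h2)
    refine h1.trans ?_
    rw [Finset.mul_sum, Finset.mul_sum]
    refine Finset.sum_le_sum fun i _ => ?_
    rw [Finset.mul_sum, Finset.mul_sum]
    refine Finset.sum_le_sum fun j _ => ?_
    by_cases hij : i = j
    · subst hij
      rw [Equiv.swap_self, if_pos rfl]
      have : S.s (Equiv.refl (Fin n)) f = f := by
        have h3 : S.s 1 = 1 := map_one S.s
        have h4 : (Equiv.refl (Fin n)) = (1 : Equiv.Perm (Fin n)) := rfl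
        rw [h4, h3]; rfl
      rw [this]
      simp
    · rw [if_neg hij]
      have h5 := (cpr n E S 0 (fun σ => map_zero _) i j hij f).2
      have h6 := hW0 i j
      nlinarith
  -- the main case
  obtain ⟨Q, g1, g2, δ, β, hG⟩ := cgr n hn E S f₀ hi
  obtain ⟨i₀, j₀, hij₀⟩ : ∃ i₀ j₀ : Fin n, i₀ ≠ j₀ :=
    ⟨⟨0, by omega⟩, ⟨1, by omega⟩, by simp [Fin.ext_iff]⟩
  have hu : ∀ i j : Fin n, i ≠ j → ‖S.u f₀ i j‖ ^ 2 = Q := by
    intro i j hij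
    have h1 := hG.gram i j i j hij hij
    have h2 : (inner ℂ (S.u f₀ i j) (S.u f₀ i j) : ℂ) = ((‖S.u f₀ i j‖ ^ 2 : ℝ) : ℂ) := by
      rw [inner_self_eq_norm_sq_to_K]
      push_cast
      rfl
    rw [h2] at h1
    have h3 := Complex.ofReal_injective h1
    rw [h3, hG.hQ]
    have h4 : ¬ (j = i) := fun h => hij h.symm
    simp only [hij, h4, and_self, and_false, or_false, if_true, if_false]
    ring
  have hFpos : 0 < ‖f₀‖ ^ 2 := by
    have := norm_pos_iff.2 hf0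
    positivity
  have hr0 := hm f₀ hi i₀ j₀ hij₀
  have hu0 : ‖f₀ - S.P i₀ j₀ f₀‖ ^ 2 = Q := by
    have h1 := hu i₀ j₀ hij₀
    unfold Sys.u at h1
    rwa [if_neg hij₀] at h1
  rw [hu0] at hr0
  have hq1 : 0 < (2 * (n : ℝ) - 4) / (2 * n - 5) := div_pos (by linarith) (by linarith)
  have hQpos : 0 < Q := by
    have h1 : 0 < ((n : ℝ) - 1) * Q := lt_of_lt_of_le (mul_pos hq1 hFpos) hr0
    exact (pos_iff_pos_of_mul_pos h1).1 (by linarith)
  obtain ⟨F, hF⟩ : ∃ F, F = ‖f₀‖ ^ 2 := ⟨_, rfl⟩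
  rw [← hF] at hFpos hr0
  have htr := hG.triv
  rw [← hF] at htr
  obtain ⟨hc, hg1n⟩ := params n Q g1 g2 δ β F hnr hG.hQ hG.hg1 hG.g1_nonneg hG.g2_nonneg hFpos
    hQpos htr
  obtain ⟨hA, f1, f2, fN, hfd, horth, hnorm, hN1, hN2, hD1, hD2, -, -⟩ :=
    cde n hn E S f₀ hi Q g1 g2 δ β hG f ho
  obtain ⟨x, hx⟩ : ∃ x : Fin n → Fin n → ℂ, x = fun i j => inner ℂ (S.u f₀ i j) f := ⟨_, rfl⟩
  rw [← hx] at hA hN1 hN2 hD1 hD2
  obtain ⟨-, -, hcar⟩ := car n hn x Q hA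
  have hY0 : 0 ≤ Yv x Q := Finset.sum_nonneg fun i _ => sq_nonneg _
  have hZ0 : 0 ≤ Zv x Q := mul_nonneg (by norm_num)
    (Finset.sum_nonneg fun i _ => Finset.sum_nonneg fun j _ => sq_nonneg _)
  obtain ⟨κ, hκ0, hκ1, hκ⟩ := cka n ((n - 1) * Q / F) (g2 / Q)
    (2 * (n - 2) / n * Yv x Q / Q ^ 2) (Zv x Q / Q ^ 2) hnr
    (by rw [le_div_iff₀ hFpos]; exact hr0) (div_nonneg hG.g2_nonneg hQpos.le) hc
    (by
      have : 0 ≤ 2 * ((n : ℝ) - 2) / n := div_nonneg (by linarith) (by linarith)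
      positivity) (by positivity)
  -- the weights
  obtain ⟨a1, ha1, hb1⟩ : ∃ a1 : ℝ, 0 ≤ a1 ∧ 1 - a1 ^ 2 = 2 * κ * g1 / (n * Q) := by
    have h1 : 0 ≤ 1 - 2 * κ * g1 / (n * Q) := by
      have hnQ : 0 < (n : ℝ) * Q := by positivity
      rw [sub_nonneg, div_le_one hnQ]
      have h2 : κ * g1 ≤ 1 * g1 := mul_le_mul_of_nonneg_right hκ1 hG.g1_nonneg
      linarith
    exact ⟨Real.sqrt (1 - 2 * κ * g1 / (n * Q)), Real.sqrt_nonneg _, by
      rw [Real.sq_sqrt h1]; ring⟩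
  obtain ⟨a2, hb2⟩ : ∃ a2 : ℝ, (κ * (g2 / Q) ≤ 1 ∧ 1 - a2 ^ 2 = κ * (g2 / Q) ∧
      (n - 1) / ((n - 1) * Q / F) ≤
        κ * (((n : ℝ) - 1) + 2 * (n - 2) / n * Yv x Q / Q ^ 2 + Zv x Q / Q ^ 2)) ∨
      (1 < κ * (g2 / Q) ∧ a2 ^ 2 = 0 ∧ 0 < g2 ∧ (n - 1) / ((n - 1) * Q / F) ≤
        κ * (((n : ℝ) - 1) + 2 * (n - 2) / n * Yv x Q / Q ^ 2 + 2 * (Zv x Q / Q ^ 2)) -
          Zv x Q / Q ^ 2 / (g2 / Q) ∧ ∀ i j, i ≠ j →
        (κ - 1 / (g2 / Q)) * (A2 x Q i j / Q ^ 2) ≤ (1 - κ) * (‖x i j‖ ^ 2 / Q ^ 2)) := by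
    rcases hκ with ⟨h1, h2⟩ | ⟨h1, h2, h3⟩
    · refine ⟨Real.sqrt (1 - κ * (g2 / Q)), Or.inl ⟨h1, ?_, h2⟩⟩
      rw [Real.sq_sqrt (by linarith)]
      ring
    · have hg2 : 0 < g2 := by
        rcases hG.g2_nonneg.lt_or_eq with h4 | h4
        · exact h4
        · rw [← h4] at h1
          simp at h1
          linarith
      refine ⟨0, Or.inr ⟨h1, by norm_num, hg2, h2, ?_⟩⟩
      intro i j hij
      obtain ⟨c1, c2, c3⟩ := hcar i j hij
      have hQ2 : 0 < Q ^ 2 := by positivity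
      have h4 := h3 (x i j / Q) (A2 x Q i j / Q ^ 2) (by positivity)
        ((div_le_div_iff_of_pos_right hQ2).2 c2) (by
          have h5 : ‖x i j / (Q : ℂ) - 1‖ ^ 2 = ‖x i j - Q‖ ^ 2 / Q ^ 2 := by
            have hQc : (Q : ℂ) ≠ 0 := by exact_mod_cast hQpos.ne'
            have h6 : x i j / (Q : ℂ) - 1 = (x i j - Q) / Q := by field_simp
            rw [h6, norm_div, div_pow, Complex.norm_real, Real.norm_eq_abs, sq_abs]
          rw [h5, div_le_iff₀ hQ2]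
          refine c3.trans (le_of_eq ?_)
          field_simp)
      refine h4.trans (le_of_eq ?_)
      rw [norm_div, div_pow, Complex.norm_real, Real.norm_eq_abs, sq_abs]
  obtain ⟨g, hg⟩ : ∃ g : E, g = fN + (a1 : ℂ) • f1 + (a2 : ℂ) • f2 := ⟨_, rfl⟩
  have hgn := (hnorm a1 a2).1
  rw [← hg] at hgn
  have hgo : ∀ h : E, (∀ σ, S.s σ h = h) → (inner ℂ h g : ℂ) = 0 := by
    intro h hh
    obtain ⟨o1, o2, o3⟩ := horth h hh
    rw [hg, inner_add_right, inner_add_right, inner_smul_right, inner_smul_right, o1, o2, o3]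
    ring
  have hald := ald n E S.s S.iso W hW hW0 lam hlam g hgo
  have hcon := con n hn x Q hA W lam hlam
  have hw : f = f₀ + (fN + f1 + f2) := by rw [hfd]; abel
  have h11 := hnorm 1 1
  simp only [Complex.ofReal_one, one_smul, one_pow, one_mul] at h11
  -- the norm of f
  have hfn : ‖f‖ ^ 2 = F + ‖fN‖ ^ 2 + ‖f1‖ ^ 2 + ‖f2‖ ^ 2 := by
    have h1 : (inner ℂ f₀ (fN + f1 + f2) : ℂ) = 0 := by
      obtain ⟨o1, o2, o3⟩ := horth f₀ hi
      rw [inner_add_right, inner_add_right, o1, o2, o3]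
      ring
    have h2 := norm_add_sq_eq_norm_sq_add_norm_sq_of_inner_eq_zero f₀ (fN + f1 + f2) h1
    rw [← hw] at h2
    have h3 := h11.1
    rw [hF]
    nlinarith
  -- the pairs
  have hpair : ∀ i j, i ≠ j → (1 / 4) * ‖g - S.s (Equiv.swap i j) g‖ ^ 2 +
      (κ / Q) * (‖x i j‖ ^ 2 + (((n : ℝ) - 2) / n) * ‖yv x Q i - yv x Q j‖ ^ 2 + A2 x Q i j) ≤
        ‖f - S.P i j f‖ ^ 2 := by
    intro i j hij
    have h1 := (cpr n E S f₀ hi i j hij f).1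
    rw [hu i j hij] at h1
    have hxx : (inner ℂ (S.u f₀ i j) f : ℂ) = x i j := by rw [hx]
    rw [hxx] at h1
    have h2 : f - S.s (Equiv.swap i j) f =
        (fN + f1 + f2) - S.s (Equiv.swap i j) (fN + f1 + f2) := by
      conv_lhs => rw [hw]
      rw [map_add, hi (Equiv.swap i j)]
      abel
    rw [h2, h11.2 i j] at h1
    have h3 := (hnorm a1 a2).2 i j
    rw [← hg] at h3
    rw [h3]
    have h4 := pairineq n Q κ g1 g2 hnr hQpos hκ1 hb1 (hD1 i j) (hD2 i j hij) (sq_nonneg ‖x i j‖)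
      (by
        rcases hb2 with ⟨k1, k2, -⟩ | ⟨k1, k2, k3, -, k5⟩
        · exact Or.inl ⟨k1, k2⟩
        · exact Or.inr ⟨k1, k2, k3, k5 i j hij⟩)
    have h5 : (1 / 4) * (‖fN - S.s (Equiv.swap i j) fN‖ ^ 2 + ‖f1 - S.s (Equiv.swap i j) f1‖ ^ 2 +
        ‖f2 - S.s (Equiv.swap i j) f2‖ ^ 2) + ‖x i j‖ ^ 2 / Q ≤ ‖f - S.P i j f‖ ^ 2 := by
      refine le_of_mul_le_mul_right ?_ hQpos
      refine le_trans (le_of_eq ?_) h1
      field_simp
    linarith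
  -- summation
  have hsum : (1 / 8) * ∑ i, ∑ j, W i j * ‖g - S.s (Equiv.swap i j) g‖ ^ 2 +
      (κ / Q) * ((1 / 2) * ∑ i, ∑ j, if i = j then 0 else W i j * (‖x i j‖ ^ 2 +
      (((n : ℝ) - 2) / n) * ‖yv x Q i - yv x Q j‖ ^ 2 + A2 x Q i j)) ≤
      (1 / 2) * ∑ i, ∑ j, if i = j then 0 else W i j * ‖f - S.P i j f‖ ^ 2 := by
    rw [← mul_assoc, Finset.mul_sum, Finset.mul_sum, Finset.mul_sum, ← Finset.sum_add_distrib]
    refine Finset.sum_le_sum fun i _ => ?_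
    rw [Finset.mul_sum, Finset.mul_sum, Finset.mul_sum, ← Finset.sum_add_distrib]
    refine Finset.sum_le_sum fun j _ => ?_
    by_cases hij : i = j
    · subst hij
      rw [Equiv.swap_self, if_pos rfl, if_pos rfl]
      have : S.s (Equiv.refl (Fin n)) g = g := by
        have h3 : S.s 1 = 1 := map_one S.s
        have h4 : (Equiv.refl (Fin n)) = (1 : Equiv.Perm (Fin n)) := rfl
        rw [h4, h3]; rfl
      rw [this]
      simp
    · rw [if_neg hij, if_neg hij]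
      have h1 := mul_le_mul_of_nonneg_left (hpair i j hij) (hW0 i j)
      linarith
  have hni := normineq n Q κ g1 g2 F hnr hQpos hFpos hb1 hN1 hN2
    (by
      rcases hb2 with ⟨-, k2, k3⟩ | ⟨-, k2, k3, k4, -⟩
      · exact Or.inl ⟨k2, k3⟩
      · exact Or.inr ⟨k2, k3, k4⟩)
  have hκQ : 0 ≤ κ / Q := by positivity
  have h1 := mul_le_mul_of_nonneg_left hcon hκQ
  refine le_trans ?_ hsum
  refine le_trans ?_ (add_le_add hald h1)
  have h2 : ‖f‖ ^ 2 ≤ ‖g‖ ^ 2 + (κ / Q) * (((n : ℝ) - 1) * Q ^ 2 +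
      (4 * ((n : ℝ) - 2) / n) * Yv x Q + 2 * Zv x Q) := by
    rw [hfn, hgn]
    nlinarith
  calc lam * ‖f‖ ^ 2 ≤ lam * (‖g‖ ^ 2 + (κ / Q) * (((n : ℝ) - 1) * Q ^ 2 +
      (4 * ((n : ℝ) - 2) / n) * Yv x Q + 2 * Zv x Q)) := mul_le_mul_of_nonneg_left h2 hl.le
    _ = _ := by ring

end Pool.Agent.GRA.H65
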