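import Pool.Agent.GRA.StmtsM
import Pool.Agent.Helper94_GRA.FEN
import Pool.Agent.Helper47_BSE.Fin2

/-!
MP_3b0ba7_pr, squad GRA, row FIN: the final theorem.
-/

set_option autoImplicit false

open Matrix

namespace Pool.Agent.GRA.H65

open Pool.Agent.GRA Pool.Agent.Helper64_FR Pool.Agent.UTR Pool.Agent.BSE

theorem dv_small {n : ℕ} (B : Finset (Fin n)) (hB : B.card ≤ 1) (y : Fin n → ℝ) (i : Fin n) :
    H47.dv B y i = 0 := by
  unfold H47.dv
  split_ifs with hi
  · have h1 : B = {i} := by
      have h2 : B.card = 1 := le_antisymm hB (Finset.card_pos.2 ⟨i, hi⟩)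
      obtain ⟨j, rfl⟩ := Finset.card_eq_one.1 h2
      rw [Finset.mem_singleton.1 hi]
    rw [h1]
    simp
  · rfl

theorem fin (ksp : KSPStmt) (kb0 : KB0Stmt) (kb1 : KB1Stmt) (fen : FENStmt) (fns : FNSStmt)
    (fon : FONStmt) : FINStmt := by
  intro n hn w hw hgraph α ρ hα hρ hN hb2
  have hone : OneBody w (α.lamMin w) := Pool.Agent.BSE.H59.one n α hα w hw
  by_cases hS : NSph ρ
  · refine le_csInf (LOW.eig_nonempty ρ hρ.1 w) ?_
    rintro x ⟨v, hv0, hv⟩
    rcases Pool.Agent.BSE.H81.wts n hn ρ w hw _ hone x v hv0 hv with h | h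
    · exact h
    have hT : TInv ρ (WithLp.toLp 2 v) := by
      intro i g hg
      rw [URep.op_toLp, h i g hg]
    have hv1 : (WithLp.toLp 2 v : ρ.Sp) ≠ 0 := fun h0 => hv0 (by
      have := congrArg WithLp.ofLp h0
      exact this)
    have hpos : 0 < ‖(WithLp.toLp 2 v : ρ.Sp)‖ ^ 2 := by
      have := norm_pos_iff.2 hv1
      positivity
    rcases Nat.lt_or_ge n 3 with h3 | h3
    · obtain rfl : n = 2 := by omega
      have hcard : ∀ B : Finset (Fin 2), B ≠ Finset.univ → B.card ≤ 1 := by
        intro B hB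
        have h1 : B.card < 2 := by
          have h2 := Finset.card_lt_card (Finset.ssubset_univ_iff.2 hB)
          simpa using h2
        omega
      have e1 := Pool.Agent.GRA.H94.eig_sq ρ w (WithLp.toLp 2 v) x (congrArg (WithLp.toLp 2) hv)
      rw [Finset.sum_eq_single Finset.univ (fun B _ hB => by
          rw [Pool.Agent.GRA.H94.P_small ρ _ hT B (hcard B hB), sub_self, norm_zero]
          ring) (fun h => (h (Finset.mem_univ _)).elim),
        Pool.Agent.GRA.H94.P_univ_zero' ρ hρ hN, sub_zero] at e1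
      have e2 : x = w Finset.univ := mul_right_cancel₀ hpos.ne' e1
      have e3 := hone (Pi.single 0 1)
      rw [Finset.sum_eq_single (Finset.univ : Finset (Fin 2)) (fun B _ hB => by
          rw [Finset.sum_eq_zero fun i _ => by rw [dv_small B (hcard B hB)]; norm_num]
          ring) (fun h => (h (Finset.mem_univ _)).elim)] at e3
      have e4 : 0 < ∑ i, H47.dv (Finset.univ : Finset (Fin 2)) (Pi.single 0 1) i ^ 2 := by
        refine Finset.sum_pos' (fun i _ => sq_nonneg _) ⟨0, Finset.mem_univ _, ?_⟩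
        unfold H47.dv
        simp
        norm_num
      rw [e2]
      exact le_of_mul_le_mul_right e3 e4
    · have e1 := fen n h3 w hw hgraph ρ hρ hN x (WithLp.toLp 2 v) hT hv
      have e2 := fns n h3 ρ hρ hS (Wp w) (fun i j => by
          unfold Wp
          by_cases h : i = j
          · rw [if_pos h, if_pos h.symm]
          · rw [if_neg h, if_neg (Ne.symm h), Finset.pair_comm])
        (fun i j => by
          unfold Wp
          split_ifs
          · exact le_refl _
          · exact hw _) _ (fon n h3 w hgraph _ hone) (WithLp.toLp 2 v) hT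
      have e3 : α.lamMin w * ‖(WithLp.toLp 2 v : ρ.Sp)‖ ^ 2 ≤
          x * ‖(WithLp.toLp 2 v : ρ.Sp)‖ ^ 2 := by
        rw [e1]
        linarith
      exact le_of_mul_le_mul_right e3 hpos
  · obtain ⟨k, hk⟩ := ksp n hn ρ hρ hS
    rcases Nat.lt_or_ge k 3 with h3 | h3
    · interval_cases k
      · exact (hN (kb0 n ρ hk)).elim
      · refine le_csInf (LOW.eig_nonempty ρ hρ.1 w) ?_
        rintro x ⟨v, hv0, hv⟩
        exact kb1 n hn ρ hk w hw _ hone x v hv0 hv
      · exact (hb2 hk).elim
    · exact Pool.Agent.BSE.H47.main Pool.Agent.BSE.H47.mo2 n hn k h3 w hw (fun _ => hgraph) α ρ hα hk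

end Pool.Agent.GRA.H65
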