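import Pool.Agent.GRA.StmtsK

/-!
MP_3b0ba7_pr, squad GRA, row KB0: the case k = 0.
-/

set_option autoImplicit false

open Matrix

namespace Pool.Agent.GRA.H65

open Pool.Agent.GRA Pool.Agent.Helper64_FR Pool.Agent.BSE

theorem kb0 : KB0Stmt := by
  intro n ρ hρ g
  obtain ⟨p, q, -, T, hT⟩ := hρ
  have h1 : ∀ F ∈ Submodule.span ℂ (Set.range (orb 0 p q)),
      ∀ M M' : Matrix (Fin n) (Fin n) ℂ, F M = F M' := by
    intro F hF
    induction hF using Submodule.span_induction with
    | mem x hx =>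
      obtain ⟨g, rfl⟩ := hx
      intro M M'
      simp [orb]
    | zero => intro M M'; rfl
    | add x y _ _ hx hy =>
      intro M M'
      rw [Pi.add_apply, Pi.add_apply, hx M M', hy M M']
    | smul a x _ hx =>
      intro M M'
      rw [Pi.smul_apply, Pi.smul_apply, hx M M']
  have h2 : ∀ v : Fin ρ.dim → ℂ, ρ.mat g *ᵥ v = v := by
    intro v
    apply hT.inj
    funext M
    rw [hT.equiv g v M]
    refine h1 _ ?_ _ _
    rw [← hT.range_eq]
    exact ⟨v, rfl⟩
  ext i j
  have h3 := congrFun (h2 (Pi.single j 1)) i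
  rw [Matrix.mulVec_single_one] at h3
  rw [Matrix.one_apply, Matrix.col_apply] at *
  rw [h3, Pi.single_apply]

end Pool.Agent.GRA.H65
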