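import Pool.Agent.GRA.StmtsM
import Pool.Agent.Helper64_FR.Basic

/-!
MP_3b0ba7_pr, squad GRA, row MCA: the Casimir operator on torus invariant vectors.
-/

set_option autoImplicit false

open Matrix

namespace Pool.Agent.GRA.H65

open Pool.Agent.GRA Pool.Agent.Helper64_FR Pool.Agent.UTR Pool.Agent.BSE

theorem star_EE {n : ℕ} (i j : Fin n) : star (EE i j : Matrix (Fin n) (Fin n) ℂ) = EE j i := by
  ext a b
  rw [Matrix.star_apply]
  simp only [EE, Matrix.single_apply]
  by_cases h : i = b ∧ j = a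
  · rw [if_pos h, if_pos ⟨h.2, h.1⟩, star_one]
  · rw [if_neg h, if_neg fun h' => h ⟨h'.2, h'.1⟩, star_zero]

theorem exists_perm {n : ℕ} {a b a' b' : Fin n} (h : a ≠ b) (h' : a' ≠ b') :
    ∃ τ : Equiv.Perm (Fin n), τ a = a' ∧ τ b = b' := by
  have h1 : Equiv.swap a a' b ≠ a' := by
    intro h2
    have h3 : Equiv.swap a a' a = a' := Equiv.swap_apply_left a a'
    exact h ((Equiv.swap a a').injective (h3.trans h2.symm))
  refine ⟨Equiv.swap (Equiv.swap a a' b) b' * Equiv.swap a a', ?_, ?_⟩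
  · rw [Equiv.Perm.mul_apply, Equiv.swap_apply_left a a', Equiv.swap_apply_of_ne_of_ne h1.symm h']
  · rw [Equiv.Perm.mul_apply, Equiv.swap_apply_left]

theorem mca (msh : MSHStmt) : MCAStmt := by
  intro n ρ D C hD hC f hf
  obtain ⟨-, m2, m3, -, -, -⟩ := msh n ρ D hD
  have hw := (m2 f).1 hf
  have hdiag : ∀ i, D (EE i i) f = 0 := fun i => by
    have := hw i
    simpa using this
  have hstar : ∀ i j, star (D (EE i j)) = D (EE j i) := fun i j => by
    rw [hD.star_eq, star_EE]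
  have h1 : (∑ a, ∑ b, if a = b then 0 else Kp ρ D a b f) = (C : ℂ) • f := by
    have h2 := congrArg (fun L : ρ.Sp →L[ℂ] ρ.Sp => L f) hC
    simp only [ContinuousLinearMap.sum_apply, ContinuousLinearMap.smul_apply,
      ContinuousLinearMap.one_apply] at h2
    rw [← h2, Finset.sum_comm]
    refine Finset.sum_congr rfl fun i _ => Finset.sum_congr rfl fun j _ => ?_
    rw [hstar]
    by_cases hij : j = i
    · subst hij
      rw [if_pos rfl]
      show (0 : ρ.Sp) = D (EE j j) (D (EE j j) f)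
      rw [hdiag, map_zero]
    · rw [if_neg hij]
      rfl
  refine ⟨h1, ?_⟩
  intro hs a b hab
  have hinner : ∀ i j, (inner ℂ f (Kp ρ D i j f) : ℂ) = ((‖D (EE j i) f‖ ^ 2 : ℝ) : ℂ) := by
    intro i j
    have h3 : (inner ℂ f (Kp ρ D i j f) : ℂ) = inner ℂ (D (EE j i) f) (D (EE j i) f) := by
      show (inner ℂ f (D (EE i j) (D (EE j i) f)) : ℂ) = _
      rw [← hstar j i, ContinuousLinearMap.star_eq_adjoint,
        ContinuousLinearMap.adjoint_inner_right]
    rw [h3, inner_self_eq_norm_sq_to_K]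
    push_cast
    rfl
  have hsame : ∀ i j, i ≠ j → ‖D (EE j i) f‖ = ‖D (EE b a) f‖ := by
    intro i j hij
    obtain ⟨τ, t1, t2⟩ := exists_perm hab.symm hij.symm
    have h4 := m3 τ b a f
    rw [t1, t2, hs τ] at h4
    rw [← h4]
    exact URep.norm_op_apply ρ (pm τ) _
  have h5 : (inner ℂ f (∑ i, ∑ j, if i = j then 0 else Kp ρ D i j f) : ℂ) =
      ((((n : ℝ) * (n - 1) * ‖D (EE b a) f‖ ^ 2 : ℝ)) : ℂ) := by
    rw [inner_sum]
    have h6 : ∀ i, (inner ℂ f (∑ j, if i = j then 0 else Kp ρ D i j f) : ℂ) =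
        ((((n : ℝ) - 1) * ‖D (EE b a) f‖ ^ 2 : ℝ) : ℂ) := by
      intro i
      rw [inner_sum]
      have h7 : ∀ j, (inner ℂ f (if i = j then 0 else Kp ρ D i j f) : ℂ) =
          (((if i = j then 0 else ‖D (EE b a) f‖ ^ 2 : ℝ)) : ℂ) := by
        intro j
        by_cases hij : i = j
        · rw [if_pos hij, if_pos hij, inner_zero_right, Complex.ofReal_zero]
        · rw [if_neg hij, if_neg hij, hinner, hsame i j hij]
      rw [Finset.sum_congr rfl fun j _ => h7 j, ← Complex.ofReal_sum]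
      congr 1
      have h8 : ∀ j, (if i = j then 0 else ‖D (EE b a) f‖ ^ 2 : ℝ) =
          ‖D (EE b a) f‖ ^ 2 - if i = j then ‖D (EE b a) f‖ ^ 2 else 0 := by
        intro j
        split_ifs <;> ring
      rw [Finset.sum_congr rfl fun j _ => h8 j, Finset.sum_sub_distrib, Finset.sum_const,
        Finset.card_univ, Fintype.card_fin, nsmul_eq_mul, Finset.sum_ite_eq Finset.univ i,
        if_pos (Finset.mem_univ i)]
      ring
    rw [Finset.sum_congr rfl fun i _ => h6 i, Finset.sum_const, Finset.card_univ,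
      Fintype.card_fin, nsmul_eq_mul]
    push_cast
    ring
  rw [h1, inner_smul_right, inner_self_eq_norm_sq_to_K] at h5
  have h9 : ((C * ‖f‖ ^ 2 : ℝ) : ℂ) = (((n : ℝ) * (n - 1) * ‖D (EE b a) f‖ ^ 2 : ℝ) : ℂ) := by
    rw [← h5]
    push_cast
    rfl
  exact (Complex.ofReal_injective h9).symm

end Pool.Agent.GRA.H65
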